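import Mathlib

set_option autoImplicit false

namespace Pool.Agent.Lib.TightTree

open Finset Classical

variable {V : Type*}

/-- `EE W A` is `(|W|+1)` times the probability that a random subset `Y` of `W` (whose size is
uniform in `0..|W|`, and which is uniform given its size) does not satisfy `A`. -/
noncomputable def EE (W : Finset V) (A : Finset V → Prop) : ℚ :=
  ∑ Y ∈ W.powerset, if A Y then 0 else (1 : ℚ) / (W.card.choose Y.card)

lemma EE_nonneg (W : Finset V) (A : Finset V → Prop) : 0 ≤ EE W A := by
  unfold EE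
  apply Finset.sum_nonneg
  intro Y _
  split_ifs
  · exact le_refl _
  · positivity

lemma EE_mono (W : Finset V) (A B : Finset V → Prop) (h : ∀ Y ⊆ W, A Y → B Y) :
    EE W B ≤ EE W A := by
  unfold EE
  apply Finset.sum_le_sum
  intro Y hY
  rw [Finset.mem_powerset] at hY
  by_cases hA : A Y
  · simp [hA, h Y hY hA]
  · by_cases hB : B Y
    · simp only [hA, hB, if_true, if_false]; positivity
    · simp [hA, hB]

lemma EE_false (W : Finset V) (A : Finset V → Prop) (h : ∀ Y ⊆ W, ¬ A Y) :
    EE W A = W.card + 1 := by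
  unfold EE
  have h1 : ∑ Y ∈ W.powerset, (if A Y then 0 else (1 : ℚ) / (W.card.choose Y.card))
      = ∑ Y ∈ W.powerset, (1 : ℚ) / (W.card.choose Y.card) := by
    apply Finset.sum_congr rfl
    intro Y hY
    rw [Finset.mem_powerset] at hY
    simp [h Y hY]
  rw [h1, Finset.sum_powerset_apply_card (fun k => (1 : ℚ) / (W.card.choose k))]
  have h2 : ∑ m ∈ Finset.range (W.card + 1), W.card.choose m • ((1 : ℚ) / (W.card.choose m))
      = ∑ m ∈ Finset.range (W.card + 1), (1 : ℚ) := by
    apply Finset.sum_congr rfl
    intro m hm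
    rw [Finset.mem_range] at hm
    have : (0 : ℚ) < (W.card.choose m : ℚ) := by
      exact_mod_cast Nat.choose_pos (Nat.lt_succ_iff.mp hm)
    rw [nsmul_eq_mul]
    field_simp
  rw [h2]
  simp

lemma EE_le (W : Finset V) (A : Finset V → Prop) : EE W A ≤ W.card + 1 := by
  rw [← EE_false W (fun _ => False) (fun _ _ h => h)]
  exact EE_mono W _ _ (fun _ _ h => h.elim)

lemma EE_con [DecidableEq V] (W : Finset V) (hW : W.Nonempty) (A : Finset V → Prop) :
    EE W A = (if A ∅ then 0 else 1)
      + (1 / (W.card : ℚ)) * ∑ w ∈ W, EE (W.erase w) (fun Y => A (insert w Y)) := by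
  have hN : 0 < W.card := hW.card_pos
  obtain ⟨N, hNe⟩ : ∃ N, W.card = N + 1 := ⟨W.card - 1, by omega⟩
  have key : ∑ w ∈ W, EE (W.erase w) (fun Y => A (insert w Y))
      = ∑ Z ∈ W.powerset, ∑ w ∈ Z, (if A Z then 0 else (1 : ℚ) / (N.choose (Z.card - 1))) := by
    have h1 : ∀ w ∈ W, EE (W.erase w) (fun Y => A (insert w Y))
        = ∑ Z ∈ W.powerset with w ∈ Z, (if A Z then 0 else (1 : ℚ) / (N.choose (Z.card - 1))) := by
      intro w hw
      unfold EE
      refine Finset.sum_nbij' (fun Y => insert w Y) (fun Z => Z.erase w) ?_ ?_ ?_ ?_ ?_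
      · intro Y hY
        rw [Finset.mem_powerset] at hY
        simp only [Finset.mem_filter, Finset.mem_powerset, Finset.mem_insert_self, and_true]
        exact Finset.insert_subset hw (hY.trans (Finset.erase_subset _ _))
      · intro Z hZ
        simp only [Finset.mem_filter, Finset.mem_powerset] at hZ
        rw [Finset.mem_powerset]
        exact Finset.erase_subset_erase w hZ.1
      · intro Y hY
        rw [Finset.mem_powerset] at hY
        have : w ∉ Y := fun h => by simpa using hY h
        exact Finset.erase_insert this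
      · intro Z hZ
        simp only [Finset.mem_filter, Finset.mem_powerset] at hZ
        exact Finset.insert_erase hZ.2
      · intro Y hY
        rw [Finset.mem_powerset] at hY
        have hwY : w ∉ Y := fun h => by simpa using hY h
        rw [Finset.card_insert_of_notMem hwY, Finset.card_erase_of_mem hw, hNe]
        simp
    rw [Finset.sum_congr rfl h1]
    rw [Finset.sum_comm' (t' := W.powerset) (s' := fun Z => Z)]
    intro w Z
    simp only [Finset.mem_filter, Finset.mem_powerset]
    constructor
    · rintro ⟨_, h2, h3⟩; exact ⟨h3, h2⟩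
    · rintro ⟨h2, h3⟩; exact ⟨h3 h2, h3, h2⟩
  rw [key, Finset.mul_sum]
  unfold EE
  have hemp : (∅ : Finset V) ∈ W.powerset := Finset.empty_mem_powerset W
  rw [← Finset.add_sum_erase _ _ hemp, ← Finset.add_sum_erase (W.powerset)
    (fun Z => 1 / (W.card : ℚ) * ∑ w ∈ Z, (if A Z then 0 else (1 : ℚ) / (N.choose (Z.card - 1)))) hemp]
  simp only [Finset.card_empty, Nat.choose_zero_right, Nat.cast_one, div_one, Finset.sum_empty,
    mul_zero, zero_add]
  congr 1
  apply Finset.sum_congr rfl
  intro Z hZ
  rw [Finset.mem_erase, Finset.mem_powerset] at hZ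
  have hZc : 0 < Z.card := Finset.card_pos.mpr (Finset.nonempty_iff_ne_empty.mpr hZ.1)
  have hZle : Z.card ≤ N + 1 := hNe ▸ Finset.card_le_card hZ.2
  rw [Finset.sum_const, nsmul_eq_mul]
  by_cases hA : A Z
  · simp [hA]
  · simp only [hA, if_false]
    rw [hNe]
    obtain ⟨k, hk⟩ : ∃ k, Z.card = k + 1 := ⟨Z.card - 1, by omega⟩
    rw [hk]
    simp only [Nat.add_sub_cancel]
    have hid := Nat.add_one_mul_choose_eq N k
    have hkN : k ≤ N := by omega
    have p1 : (0 : ℚ) < (N.choose k : ℚ) := by exact_mod_cast Nat.choose_pos hkN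
    have p2 : (0 : ℚ) < ((N + 1).choose (k + 1) : ℚ) := by
      exact_mod_cast Nat.choose_pos (by omega)
    have hidq : ((N : ℚ) + 1) * (N.choose k : ℚ) = ((N + 1).choose (k + 1) : ℚ) * ((k : ℚ) + 1) := by
      exact_mod_cast hid
    push_cast
    field_simp
    linarith

lemma EE_del [DecidableEq V] (W : Finset V) (hW : W.Nonempty) (A : Finset V → Prop) :
    EE W A = (if A W then 0 else 1)
      + (1 / (W.card : ℚ)) * ∑ w ∈ W, EE (W.erase w) A := by
  have hN : 0 < W.card := hW.card_pos
  obtain ⟨N, hNe⟩ : ∃ N, W.card = N + 1 := ⟨W.card - 1, by omega⟩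
  have key : ∑ w ∈ W, EE (W.erase w) A
      = ∑ Z ∈ W.powerset, ∑ w ∈ W \ Z, (if A Z then 0 else (1 : ℚ) / (N.choose Z.card)) := by
    have h1 : ∀ w ∈ W, EE (W.erase w) A
        = ∑ Z ∈ (W.erase w).powerset, (if A Z then 0 else (1 : ℚ) / (N.choose Z.card)) := by
      intro w hw
      unfold EE
      apply Finset.sum_congr rfl
      intro Y _
      rw [Finset.card_erase_of_mem hw, hNe]
      simp
    rw [Finset.sum_congr rfl h1]
    rw [Finset.sum_comm' (t' := W.powerset) (s' := fun Z => W \ Z)]
    intro w Z
    simp only [Finset.mem_powerset, Finset.mem_sdiff]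
    constructor
    · rintro ⟨h2, h3⟩
      refine ⟨⟨h2, fun h => ?_⟩, h3.trans (Finset.erase_subset _ _)⟩
      simpa using h3 h
    · rintro ⟨⟨h2, h4⟩, h3⟩
      refine ⟨h2, fun x hx => ?_⟩
      rw [Finset.mem_erase]
      exact ⟨fun he => h4 (he ▸ hx), h3 hx⟩
  rw [key, Finset.mul_sum]
  unfold EE
  have hmem : W ∈ W.powerset := Finset.mem_powerset_self W
  rw [← Finset.add_sum_erase _ _ hmem, ← Finset.add_sum_erase (W.powerset)
    (fun Z => 1 / (W.card : ℚ) * ∑ w ∈ W \ Z, (if A Z then 0 else (1 : ℚ) / (N.choose Z.card))) hmem]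
  simp only [Nat.choose_self, Nat.cast_one, div_one, Finset.sdiff_self, Finset.sum_empty,
    mul_zero, zero_add]
  congr 1
  apply Finset.sum_congr rfl
  intro Z hZ
  rw [Finset.mem_erase, Finset.mem_powerset] at hZ
  have hlt : Z.card < W.card := Finset.card_lt_card (Finset.ssubset_iff_subset_ne.mpr ⟨hZ.2, hZ.1⟩)
  rw [Finset.sum_const, nsmul_eq_mul, Finset.card_sdiff_of_subset hZ.2]
  by_cases hA : A Z
  · simp [hA]
  · simp only [hA, if_false]
    rw [hNe] at hlt ⊢
    have hid := Nat.choose_mul_succ_eq N Z.card
    have p1 : (0 : ℚ) < (N.choose Z.card : ℚ) := by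
      exact_mod_cast Nat.choose_pos (by omega)
    have p2 : (0 : ℚ) < ((N + 1).choose Z.card : ℚ) := by
      exact_mod_cast Nat.choose_pos (by omega)
    have hidq : (N.choose Z.card : ℚ) * ((N : ℚ) + 1)
        = ((N + 1).choose Z.card : ℚ) * ((N + 1 - Z.card : ℕ) : ℚ) := by
      exact_mod_cast hid
    push_cast [Nat.cast_sub (show Z.card ≤ N + 1 by omega)] at hidq ⊢
    field_simp
    linarith

/-- Disjoint occurrence. -/
def Box (A B : Finset V → Prop) (Y : Finset V) : Prop :=
  ∃ Y₁ Y₂ : Finset V, Y₁ ⊆ Y ∧ Y₂ ⊆ Y ∧ Disjoint Y₁ Y₂ ∧ A Y₁ ∧ B Y₂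

/-- The gluing lemma: failure probabilities are subadditive under disjoint occurrence. -/
lemma EE_box [DecidableEq V] (n : ℕ) : ∀ (W : Finset V), W.card = n →
    ∀ (A B : Finset V → Prop), EE W (Box A B) ≤ EE W A + EE W B := by
  induction n with
  | zero =>
    intro W hW A B
    rw [Finset.card_eq_zero] at hW
    subst hW
    unfold EE
    simp only [Finset.powerset_empty, Finset.sum_singleton, Finset.card_empty,
      Nat.choose_self, Nat.cast_one, div_one]
    by_cases hA : A ∅
    · by_cases hB : B ∅
      · have : Box A B ∅ := ⟨∅, ∅, by simp, by simp, by simp, hA, hB⟩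
        simp [hA, hB, this]
      · simp only [hA, hB, if_true, if_false, zero_add]
        split_ifs <;> norm_num
    · simp only [hA, if_false]
      split_ifs <;> norm_num
  | succ n ih =>
    intro W hW A B
    have hne : W.Nonempty := by
      rw [← Finset.card_pos]; omega
    by_cases hA : A ∅
    · have h1 : EE W (Box A B) ≤ EE W B := by
        apply EE_mono
        intro Y _ hB
        exact ⟨∅, Y, by simp, by simp, by simp, hA, hB⟩
      have h2 := EE_nonneg W A
      linarith
    · rw [EE_con W hne (Box A B), EE_con W hne A]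
      have h1 : ∀ w ∈ W, EE (W.erase w) (fun Y => Box A B (insert w Y))
          ≤ EE (W.erase w) (fun Y => A (insert w Y)) + EE (W.erase w) B := by
        intro w hw
        refine le_trans ?_ (ih (W.erase w) (by rw [Finset.card_erase_of_mem hw]; omega) _ _)
        apply EE_mono
        rintro Y hY ⟨Y₁, Y₂, h1, h2, h3, h4, h5⟩
        have hwY : w ∉ Y := fun h => by simpa using hY h
        refine ⟨insert w Y₁, Y₂, Finset.insert_subset_insert w h1,
          h2.trans (Finset.subset_insert _ _), ?_, h4, h5⟩
        rw [Finset.disjoint_insert_left]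
        exact ⟨fun h => hwY (h2 h), h3⟩
      have h2 := Finset.sum_le_sum h1
      rw [Finset.sum_add_distrib] at h2
      have h3 : (1 / (W.card : ℚ)) * ∑ w ∈ W, EE (W.erase w) B ≤ EE W B := by
        rw [EE_del W hne B]
        have : (0 : ℚ) ≤ (if B W then 0 else 1) := by split_ifs <;> norm_num
        linarith
      have hpos : (0 : ℚ) ≤ 1 / (W.card : ℚ) := by positivity
      have h4 := mul_le_mul_of_nonneg_left h2 hpos
      rw [mul_add] at h4
      have h5 : (if Box A B ∅ then (0 : ℚ) else 1) ≤ 1 := by split_ifs <;> norm_num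
      simp only [hA, if_false]
      linarith

/-- The extension lemma. -/
lemma EE_ext [DecidableEq V] (n : ℕ) : ∀ (U : Finset V), U.card = n →
    ∀ (S : Finset V), S ⊆ U → ∀ (A A' : V → Finset V → Prop),
    (∀ v ∈ S, ∀ Y Z : Finset V, Y ⊆ Z → A v Y → A v Z) →
    (∀ v ∈ S, ∀ Y ⊆ U.erase v, ∀ v' ∈ S, v' ∈ Y → A v' (Y.erase v') → A' v Y) →
    ∑ v ∈ S, EE (U.erase v) (A' v) ≤ ∑ v ∈ S, EE (U.erase v) (A v) + U.card := by
  induction n with
  | zero =>
    intro U hU S hS A A' _ _
    rw [Finset.card_eq_zero] at hU
    subst hU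
    rw [Finset.subset_empty] at hS
    subst hS
    simp
  | succ n ih =>
    intro U hU S hS A A' hmono hext
    rcases Nat.eq_zero_or_pos n with hn | hn
    · -- one-point set
      subst hn
      obtain ⟨x, rfl⟩ := Finset.card_eq_one.mp hU
      have h1 : ∀ v ∈ S, EE (({x} : Finset V).erase v) (A' v) ≤ 1 := by
        intro v hv
        have hvx : v = x := by simpa using hS hv
        subst hvx
        have := EE_le (({v} : Finset V).erase v) (A' v)
        simpa using this
      have h2 : ∑ v ∈ S, EE (({x} : Finset V).erase v) (A' v) ≤ ∑ v ∈ S, (1 : ℚ) :=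
        Finset.sum_le_sum h1
      have h3 : S.card ≤ 1 := by
        have := Finset.card_le_card hS
        simpa using this
      have h4 : (0 : ℚ) ≤ ∑ v ∈ S, EE (({x} : Finset V).erase v) (A v) :=
        Finset.sum_nonneg (fun v _ => EE_nonneg _ _)
      have h5 : (S.card : ℚ) ≤ 1 := by exact_mod_cast h3
      simp only [Finset.sum_const, nsmul_eq_mul, mul_one] at h2
      simp only [Finset.card_singleton, Nat.cast_one]
      linarith
    · -- recursion
      have hrec : ∀ B : V → Finset V → Prop, ∑ v ∈ S, EE (U.erase v) (B v)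
          = ∑ w ∈ U, ((if w ∈ S ∧ ¬ B w (U.erase w) then 1 else 0)
            + (1 / (n : ℚ)) * ∑ v ∈ S.erase w, EE ((U.erase w).erase v) (B v)) := by
        intro B
        have h1 : ∀ v ∈ S, EE (U.erase v) (B v)
            = (if B v (U.erase v) then 0 else 1)
              + ∑ w ∈ U.erase v, (1 / (n : ℚ)) * EE ((U.erase w).erase v) (B v) := by
          intro v hv
          have hc : (U.erase v).card = n := by
            rw [Finset.card_erase_of_mem (hS hv)]; omega
          have hne : (U.erase v).Nonempty := by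
            rw [← Finset.card_pos, hc]; exact hn
          rw [EE_del (U.erase v) hne (B v), hc, Finset.mul_sum]
          congr 1
          apply Finset.sum_congr rfl
          intro w _
          rw [Finset.erase_right_comm]
        rw [Finset.sum_congr rfl h1, Finset.sum_add_distrib, Finset.sum_add_distrib]
        congr 1
        · rw [← Finset.sum_subset hS]
          · apply Finset.sum_congr rfl
            intro v hv
            by_cases hB : B v (U.erase v) <;> simp [hv, hB]
          · intro v _ hv
            simp [hv]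
        · simp_rw [Finset.mul_sum]
          rw [Finset.sum_comm' (t' := U) (s' := fun w => S.erase w)]
          intro v w
          simp only [Finset.mem_erase]
          constructor
          · rintro ⟨h1, h2, h3⟩
            exact ⟨⟨fun h => h2 h.symm, h1⟩, h3⟩
          · rintro ⟨⟨h2, h1⟩, h3⟩
            exact ⟨h1, fun h => h2 h.symm, h3⟩
      rw [hrec A', hrec A]
      have hcardU : (U.card : ℚ) = ∑ w ∈ U, (1 : ℚ) := by simp
      rw [hcardU, ← Finset.sum_add_distrib]
      apply Finset.sum_le_sum
      intro w hw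
      have hcw : (U.erase w).card = n := by
        rw [Finset.card_erase_of_mem hw]; omega
      have hnq : (0 : ℚ) < n := by exact_mod_cast hn
      have hsub : S.erase w ⊆ U.erase w := Finset.erase_subset_erase w hS
      have hnn : (0 : ℚ) ≤ (if w ∈ S ∧ ¬ A w (U.erase w) then 1 else 0) := by
        split_ifs <;> norm_num
      by_cases hd : w ∈ S ∧ ¬ A' w (U.erase w)
      · -- all smaller ones are dead
        rw [if_pos hd]
        have hdead : ∀ v ∈ S.erase w, EE ((U.erase w).erase v) (A v)
            = ((U.erase w).erase v).card + 1 := by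
          intro v hv
          apply EE_false
          intro Y hY hAY
          rw [Finset.mem_erase] at hv
          apply hd.2
          refine hext w hd.1 (U.erase w) (Finset.Subset.refl _) v hv.2 ?_ ?_
          · rw [Finset.mem_erase]; exact ⟨hv.1, hS hv.2⟩
          · exact hmono v hv.2 Y _ hY hAY
        have hle : ∑ v ∈ S.erase w, EE ((U.erase w).erase v) (A' v)
            ≤ ∑ v ∈ S.erase w, EE ((U.erase w).erase v) (A v) := by
          apply Finset.sum_le_sum
          intro v hv
          rw [hdead v hv]
          exact EE_le _ _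
        have := mul_le_mul_of_nonneg_left hle (show (0 : ℚ) ≤ 1 / (n : ℚ) by positivity)
        linarith
      · rw [if_neg hd]
        have hih := ih (U.erase w) hcw (S.erase w) hsub A A'
          (fun v hv Y Z => hmono v (Finset.mem_of_mem_erase hv) Y Z)
          (by
            intro v hv Y hY v' hv' hv'Y hAv'
            refine hext v (Finset.mem_of_mem_erase hv) Y ?_ v' (Finset.mem_of_mem_erase hv') hv'Y hAv'
            exact hY.trans (Finset.erase_subset_erase v (Finset.erase_subset _ _)))
        have := mul_le_mul_of_nonneg_left hih (show (0 : ℚ) ≤ 1 / (n : ℚ) by positivity)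
        rw [mul_add, hcw] at this
        have h1 : 1 / (n : ℚ) * (n : ℚ) = 1 := by field_simp
        rw [h1] at this
        linarith

end Pool.Agent.Lib.TightTree
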