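import Mathlib
import Pool.Agent.Lib.TightTree.Core

set_option autoImplicit false

namespace Pool.Agent.Lib.TightTree

open Finset Classical

/-- Rooted labelled tight trees on a vertex type `W`, with positions `ι` (an edge is a tuple
`ι → W`). `IsTT σ E N C`: the root edge is `σ`, the set of edges is `E`, the set of vertices
outside the root edge is `N`, and `C i` counts the replacement steps made at position `i`. -/
inductive IsTT {ι W : Type*} [DecidableEq ι] [DecidableEq W] :
    (ι → W) → Set (ι → W) → Finset W → (ι → ℕ) → Prop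
  | single (σ : ι → W) (h : Function.Injective σ) : IsTT σ {σ} ∅ 0
  | ext (σ : ι → W) (E : Set (ι → W)) (N : Finset W) (C : ι → ℕ) (i : ι) (w : W)
      (h : IsTT σ E N C) (hw : w ∉ N) (hw' : ∀ j, w ≠ σ j) :
      IsTT (Function.update σ i w) (insert (Function.update σ i w) E) (insert (σ i) N)
        (Function.update C i (C i + 1))
  | glue (σ : ι → W) (E₁ E₂ : Set (ι → W)) (N₁ N₂ : Finset W) (C₁ C₂ : ι → ℕ)
      (h₁ : IsTT σ E₁ N₁ C₁) (h₂ : IsTT σ E₂ N₂ C₂) (hd : Disjoint N₁ N₂) :
      IsTT σ (E₁ ∪ E₂) (N₁ ∪ N₂) (C₁ + C₂)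

section inv

variable {ι W : Type*} [DecidableEq ι] [DecidableEq W]

lemma update_injective {α β : Type*} [DecidableEq α] {σ : α → β} (hσ : Function.Injective σ)
    (i : α) (w : β) (hw : ∀ j, w ≠ σ j) : Function.Injective (Function.update σ i w) := by
  intro a b hab
  by_cases ha : a = i
  · subst ha
    by_cases hb : b = a
    · exact hb.symm
    · rw [Function.update_self, Function.update_of_ne hb] at hab
      exact absurd hab (hw b)
  · by_cases hb : b = i
    · subst hb
      rw [Function.update_self, Function.update_of_ne ha] at hab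
      exact absurd hab.symm (hw a)
    · rw [Function.update_of_ne ha, Function.update_of_ne hb] at hab
      exact hσ hab

/-- Invariants of rooted labelled tight trees. -/
lemma IsTT.inv {σ : ι → W} {E : Set (ι → W)} {N : Finset W} {C : ι → ℕ} (h : IsTT σ E N C) :
    Function.Injective σ ∧ (∀ i, σ i ∉ N) ∧ (∀ τ ∈ E, ∀ j, τ j ∈ N ∨ ∃ i, τ j = σ i) ∧
      (∀ τ ∈ E, Function.Injective τ) ∧ σ ∈ E := by
  induction h with
  | single σ h =>
    refine ⟨h, fun i => by simp, ?_, ?_, rfl⟩
    · intro τ hτ j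
      rw [Set.mem_singleton_iff] at hτ
      subst hτ
      exact Or.inr ⟨j, rfl⟩
    · intro τ hτ
      rw [Set.mem_singleton_iff] at hτ
      subst hτ
      exact h
  | ext σ E N C i w h hw hw' ih =>
    obtain ⟨h1, h2, h3, h4, _⟩ := ih
    have hinj := update_injective h1 i w hw'
    refine ⟨hinj, ?_, ?_, ?_, Set.mem_insert _ _⟩
    · intro j
      rw [Finset.mem_insert, not_or]
      by_cases hj : j = i
      · subst hj
        rw [Function.update_self]
        exact ⟨hw' j, hw⟩
      · rw [Function.update_of_ne hj]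
        exact ⟨fun h => hj (h1 h), h2 j⟩
    · intro τ hτ j
      rcases hτ with rfl | hτ
      · exact Or.inr ⟨j, rfl⟩
      · rcases h3 τ hτ j with h | ⟨k, hk⟩
        · exact Or.inl (Finset.mem_insert_of_mem h)
        · by_cases hki : k = i
          · subst hki
            left; rw [hk]; exact Finset.mem_insert_self _ _
          · right
            exact ⟨k, by rw [Function.update_of_ne hki]; exact hk⟩
    · intro τ hτ
      rcases hτ with rfl | hτ
      · exact hinj
      · exact h4 τ hτ
  | glue σ E₁ E₂ N₁ N₂ C₁ C₂ h₁ h₂ hd ih₁ ih₂ =>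
    obtain ⟨a1, a2, a3, a4, a5⟩ := ih₁
    obtain ⟨b1, b2, b3, b4, b5⟩ := ih₂
    refine ⟨a1, ?_, ?_, ?_, Or.inl a5⟩
    · intro i
      rw [Finset.mem_union, not_or]
      exact ⟨a2 i, b2 i⟩
    · intro τ hτ j
      rcases hτ with hτ | hτ
      · rcases a3 τ hτ j with h | h
        · exact Or.inl (Finset.mem_union_left _ h)
        · exact Or.inr h
      · rcases b3 τ hτ j with h | h
        · exact Or.inl (Finset.mem_union_right _ h)
        · exact Or.inr h
    · intro τ hτ
      rcases hτ with hτ | hτ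
      · exact a4 τ hτ
      · exact b4 τ hτ

/-- The number of steps is the number of non-root vertices. -/
lemma IsTT.card [Fintype ι] {σ : ι → W} {E : Set (ι → W)} {N : Finset W} {C : ι → ℕ}
    (h : IsTT σ E N C) : ∑ i, C i = N.card := by
  induction h with
  | single σ h => simp
  | ext σ E N C i w h hw hw' ih =>
    have hn : σ i ∉ N := (IsTT.inv h).2.1 i
    rw [Finset.card_insert_of_notMem hn, ← ih]
    rw [← Finset.add_sum_erase _ _ (Finset.mem_univ i), ← Finset.add_sum_erase _ C (Finset.mem_univ i)]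
    rw [Function.update_self]
    have : ∑ x ∈ Finset.univ.erase i, Function.update C i (C i + 1) x
        = ∑ x ∈ Finset.univ.erase i, C x := by
      apply Finset.sum_congr rfl
      intro x hx
      rw [Function.update_of_ne (Finset.ne_of_mem_erase hx)]
    rw [this]; ring
  | glue σ E₁ E₂ N₁ N₂ C₁ C₂ h₁ h₂ hd ih₁ ih₂ =>
    rw [Finset.card_union_of_disjoint hd, ← ih₁, ← ih₂, ← Finset.sum_add_distrib]
    rfl

end inv

section emb

variable {ι W V : Type*} [Fintype ι] [DecidableEq ι] [DecidableEq W] [Fintype V] [DecidableEq V]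

/-- The tree `(σ₀, E, N)` embeds in `Sig` with root edge mapped to `σ` and the other vertices
mapped injectively into `Y`. -/
def Emb (Sig : Finset (ι → V)) (σ₀ : ι → W) (E : Set (ι → W)) (N : Finset W)
    (σ : ι → V) (Y : Finset V) : Prop :=
  ∃ φ : W → V, (∀ i, φ (σ₀ i) = σ i) ∧ Set.InjOn φ (N : Set W) ∧ (∀ x ∈ N, φ x ∈ Y) ∧
    ∀ τ ∈ E, φ ∘ τ ∈ Sig

/-- Vertices outside the edge `σ`. -/
def Out (σ : ι → V) : Finset V := Finset.univ \ Finset.univ.image σ

lemma mem_Out {σ : ι → V} {x : V} : x ∈ Out σ ↔ ∀ i, σ i ≠ x := by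
  simp [Out]

lemma Emb.mono {Sig : Finset (ι → V)} {σ₀ : ι → W} {E : Set (ι → W)} {N : Finset W}
    {σ : ι → V} {Y Z : Finset V} (hYZ : Y ⊆ Z) (h : Emb Sig σ₀ E N σ Y) :
    Emb Sig σ₀ E N σ Z := by
  obtain ⟨φ, h1, h2, h3, h4⟩ := h
  exact ⟨φ, h1, h2, fun x hx => hYZ (h3 x hx), h4⟩

lemma Emb.glue {Sig : Finset (ι → V)} {σ₀ : ι → W} {E₁ E₂ : Set (ι → W)} {N₁ N₂ : Finset W}
    {C₁ C₂ : ι → ℕ} (h₁ : IsTT σ₀ E₁ N₁ C₁) (h₂ : IsTT σ₀ E₂ N₂ C₂) (hd : Disjoint N₁ N₂)
    {σ : ι → V} {Y : Finset V}
    (h : Box (Emb Sig σ₀ E₁ N₁ σ) (Emb Sig σ₀ E₂ N₂ σ) Y) :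
    Emb Sig σ₀ (E₁ ∪ E₂) (N₁ ∪ N₂) σ Y := by
  obtain ⟨Y₁, Y₂, hY₁, hY₂, hdY, ⟨φ₁, a1, a2, a3, a4⟩, ⟨φ₂, b1, b2, b3, b4⟩⟩ := h
  obtain ⟨_, i2, i3, _, _⟩ := h₁.inv
  obtain ⟨_, j2, j3, _, _⟩ := h₂.inv
  have hroot : ∀ i, (if σ₀ i ∈ N₁ then φ₁ (σ₀ i) else φ₂ (σ₀ i)) = σ i := by
    intro i
    rw [if_neg (i2 i)]; exact b1 i
  refine ⟨fun x => if x ∈ N₁ then φ₁ x else φ₂ x, hroot, ?_, ?_, ?_⟩
  · intro x hx y hy hxy
    simp only [Finset.coe_union, Set.mem_union, Finset.mem_coe] at hx hy
    simp only at hxy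
    by_cases hx1 : x ∈ N₁
    · by_cases hy1 : y ∈ N₁
      · rw [if_pos hx1, if_pos hy1] at hxy
        exact a2 hx1 hy1 hxy
      · rw [if_pos hx1, if_neg hy1] at hxy
        have hy2 : y ∈ N₂ := hy.resolve_left hy1
        exact absurd hxy (fun h => (Finset.disjoint_left.mp hdY (a3 x hx1)) (h ▸ b3 y hy2))
    · have hx2 : x ∈ N₂ := hx.resolve_left hx1
      by_cases hy1 : y ∈ N₁
      · rw [if_neg hx1, if_pos hy1] at hxy
        exact absurd hxy (fun h => (Finset.disjoint_left.mp hdY (a3 y hy1)) (h ▸ b3 x hx2))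
      · rw [if_neg hx1, if_neg hy1] at hxy
        exact b2 hx2 (hy.resolve_left hy1) hxy
  · intro x hx
    rw [Finset.mem_union] at hx
    by_cases hx1 : x ∈ N₁
    · simp only [hx1, if_true]
      exact hY₁ (a3 x hx1)
    · simp only [hx1, if_false]
      exact hY₂ (b3 x (hx.resolve_left hx1))
  · intro τ hτ
    rcases hτ with hτ | hτ
    · have : (fun x => if x ∈ N₁ then φ₁ x else φ₂ x) ∘ τ = φ₁ ∘ τ := by
        funext j
        simp only [Function.comp_apply]
        rcases i3 τ hτ j with h | ⟨i, hi⟩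
        · rw [if_pos h]
        · rw [hi, hroot i, a1 i]
      rw [this]; exact a4 τ hτ
    · have : (fun x => if x ∈ N₁ then φ₁ x else φ₂ x) ∘ τ = φ₂ ∘ τ := by
        funext j
        simp only [Function.comp_apply]
        rcases j3 τ hτ j with h | ⟨i, hi⟩
        · rw [if_neg (fun h1 => (Finset.disjoint_left.mp hd h1) h)]
        · rw [hi, hroot i, b1 i]
      rw [this]; exact b4 τ hτ

lemma Emb.ext {Sig : Finset (ι → V)} {σ₀ : ι → W} {E : Set (ι → W)} {N : Finset W}
    {C : ι → ℕ} (h : IsTT σ₀ E N C) (i : ι) (w : W) (hw : w ∉ N) (hw' : ∀ j, w ≠ σ₀ j)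
    {σ : ι → V} (hσ : σ ∈ Sig) {Y : Finset V} (v : V) (hv : v ∈ Y)
    (he : Emb Sig σ₀ E N (Function.update σ i v) (Y.erase v)) :
    Emb Sig (Function.update σ₀ i w) (insert (Function.update σ₀ i w) E) (insert (σ₀ i) N) σ Y := by
  obtain ⟨φ, a1, a2, a3, a4⟩ := he
  obtain ⟨i1, i2, i3, _, _⟩ := h.inv
  have hroot : ∀ j, Function.update φ w (σ i) (Function.update σ₀ i w j) = σ j := by
    intro j
    by_cases hj : j = i
    · subst hj; simp
    · rw [Function.update_of_ne hj, Function.update_of_ne (hw' j).symm, a1 j,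
        Function.update_of_ne hj]
  have hN : ∀ x ∈ N, Function.update φ w (σ i) x = φ x := by
    intro x hx
    rw [Function.update_of_ne]
    rintro rfl; exact hw hx
  have hri : Function.update φ w (σ i) (σ₀ i) = v := by
    rw [Function.update_of_ne (hw' i).symm, a1 i, Function.update_self]
  refine ⟨Function.update φ w (σ i), hroot, ?_, ?_, ?_⟩
  · intro x hx y hy hxy
    simp only [Finset.coe_insert, Set.mem_insert_iff, Finset.mem_coe] at hx hy
    rcases hx with rfl | hx
    · rcases hy with rfl | hy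
      · rfl
      · rw [hri, hN y hy] at hxy
        have := a3 y hy
        rw [← hxy] at this
        simp at this
    · rcases hy with rfl | hy
      · rw [hri, hN x hx] at hxy
        have := a3 x hx
        rw [hxy] at this
        simp at this
      · rw [hN x hx, hN y hy] at hxy
        exact a2 hx hy hxy
  · intro x hx
    rw [Finset.mem_insert] at hx
    rcases hx with rfl | hx
    · rw [hri]; exact hv
    · rw [hN x hx]; exact Finset.mem_of_mem_erase (a3 x hx)
  · intro τ hτ
    rcases hτ with rfl | hτ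
    · have : Function.update φ w (σ i) ∘ Function.update σ₀ i w = σ := by
        funext j; exact hroot j
      rw [this]; exact hσ
    · have : Function.update φ w (σ i) ∘ τ = φ ∘ τ := by
        funext j
        simp only [Function.comp_apply]
        rw [Function.update_of_ne]
        intro hj
        rcases i3 τ hτ j with h | ⟨k, hk⟩
        · exact hw (hj ▸ h)
        · exact hw' k (by rw [← hk, hj])
      rw [this]; exact a4 τ hτ

/-- Restriction of a tuple to the positions other than `i`. -/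
def rest (i : ι) (σ : ι → V) : {j // j ≠ i} → V := fun j => σ j

/-- One fibre of the restriction map. -/
lemma fibre_sum (Sig : Finset (ι → V)) (hinj : ∀ σ ∈ Sig, Function.Injective σ) (i : ι)
    (σ : ι → V) (hσ : σ ∈ Sig) (A A' : (ι → V) → Finset V → Prop)
    (hmono : ∀ τ ∈ Sig, ∀ Y Z : Finset V, Y ⊆ Z → A τ Y → A τ Z)
    (hext : ∀ τ ∈ Sig, ∀ Y ⊆ Out τ, ∀ v ∈ Y, Function.update τ i v ∈ Sig →
      A (Function.update τ i v) (Y.erase v) → A' τ Y) :
    ∑ τ ∈ Sig with rest i τ = rest i σ, EE (Out τ) (A' τ)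
      ≤ ∑ τ ∈ Sig with rest i τ = rest i σ, EE (Out τ) (A τ)
        + ((Fintype.card V - Fintype.card ι + 1 : ℕ) : ℚ) := by
  set S : Finset V := Finset.univ.filter (fun v => Function.update σ i v ∈ Sig) with hS
  set U : Finset V := insert (σ i) (Out σ) with hU
  have hσinj := hinj σ hσ
  have hUmem : ∀ x, x ∈ U ↔ ∀ j, j ≠ i → σ j ≠ x := by
    intro x
    rw [hU, Finset.mem_insert, mem_Out]
    constructor
    · rintro (rfl | h) j hj
      · exact fun h => hj (hσinj h)
      · exact h j
    · intro h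
      by_cases hx : x = σ i
      · exact Or.inl hx
      · right
        intro j
        by_cases hj : j = i
        · subst hj; exact fun h => hx h.symm
        · exact h j hj
  have hUcard : U.card = Fintype.card V - Fintype.card ι + 1 := by
    rw [hU, Finset.card_insert_of_notMem, Out, Finset.card_sdiff_of_subset (Finset.subset_univ _),
      Finset.card_image_of_injective _ hσinj, Finset.card_univ, Finset.card_univ]
    rw [mem_Out]; push Not; exact ⟨i, rfl⟩
  have hSU : S ⊆ U := by
    intro v hv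
    rw [hS, Finset.mem_filter] at hv
    rw [hUmem]
    intro j hj h
    have h1 := hinj _ hv.2
    apply hj
    apply h1
    rw [Function.update_self, Function.update_of_ne hj, h]
  have hOut : ∀ v ∈ S, Out (Function.update σ i v) = U.erase v := by
    intro v hv
    ext x
    rw [mem_Out, Finset.mem_erase, hUmem]
    constructor
    · intro h
      refine ⟨?_, fun j hj => ?_⟩
      · have := h i
        rw [Function.update_self] at this
        exact this.symm
      · have := h j
        rwa [Function.update_of_ne hj] at this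
    · rintro ⟨h1, h2⟩ j
      by_cases hj : j = i
      · subst hj; rw [Function.update_self]; exact h1.symm
      · rw [Function.update_of_ne hj]; exact h2 j hj
  have hreidx : ∀ F : (ι → V) → ℚ, ∑ τ ∈ Sig with rest i τ = rest i σ, F τ
      = ∑ v ∈ S, F (Function.update σ i v) := by
    intro F
    refine Finset.sum_nbij' (fun τ => τ i) (fun v => Function.update σ i v) ?_ ?_ ?_ ?_ ?_
    · intro τ hτ
      rw [Finset.mem_filter] at hτ
      have : Function.update σ i (τ i) = τ := by
        funext j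
        by_cases hj : j = i
        · subst hj; simp
        · rw [Function.update_of_ne hj]
          exact (congrFun hτ.2 ⟨j, hj⟩).symm
      simp only [hS, Finset.mem_filter, Finset.mem_univ, true_and]
      rw [this]; exact hτ.1
    · intro v hv
      simp only [hS, Finset.mem_filter, Finset.mem_univ, true_and] at hv
      rw [Finset.mem_filter]
      refine ⟨hv, ?_⟩
      funext j
      simp [rest, Function.update_of_ne j.2]
    · intro τ hτ
      rw [Finset.mem_filter] at hτ
      funext j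
      by_cases hj : j = i
      · subst hj; simp
      · rw [Function.update_of_ne hj]
        exact (congrFun hτ.2 ⟨j, hj⟩).symm
    · intro v _
      simp
    · intro τ hτ
      rw [Finset.mem_filter] at hτ
      congr 1
      funext j
      by_cases hj : j = i
      · subst hj; simp
      · rw [Function.update_of_ne hj]
        exact (congrFun hτ.2 ⟨j, hj⟩)
  rw [hreidx, hreidx, ← hUcard]
  have h1 : ∀ B : (ι → V) → Finset V → Prop,
      ∑ v ∈ S, EE (Out (Function.update σ i v)) (B (Function.update σ i v))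
        = ∑ v ∈ S, EE (U.erase v) (B (Function.update σ i v)) := by
    intro B
    apply Finset.sum_congr rfl
    intro v hv
    rw [hOut v hv]
  rw [h1 A', h1 A]
  refine EE_ext U.card U rfl S hSU (fun v => A (Function.update σ i v))
    (fun v => A' (Function.update σ i v)) ?_ ?_
  · intro v hv Y Z hYZ hA
    rw [hS, Finset.mem_filter] at hv
    exact hmono _ hv.2 Y Z hYZ hA
  · intro v hv Y hY v' hv' hv'Y hA
    have hvS := hv
    have hv'S := hv'
    rw [hS, Finset.mem_filter] at hv hv'
    refine hext _ hv.2 Y (by rw [hOut v hvS]; exact hY) v' hv'Y ?_ ?_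
    · rw [Function.update_idem]; exact hv'.2
    · rw [Function.update_idem]; exact hA

/-- The total failure weight grows by at most (number of lists) times `|V| - r + 1` in an
extension step. -/
lemma total_ext (Sig : Finset (ι → V)) (hinj : ∀ σ ∈ Sig, Function.Injective σ) (i : ι)
    (A A' : (ι → V) → Finset V → Prop)
    (hmono : ∀ τ ∈ Sig, ∀ Y Z : Finset V, Y ⊆ Z → A τ Y → A τ Z)
    (hext : ∀ τ ∈ Sig, ∀ Y ⊆ Out τ, ∀ v ∈ Y, Function.update τ i v ∈ Sig →
      A (Function.update τ i v) (Y.erase v) → A' τ Y) :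
    ∑ τ ∈ Sig, EE (Out τ) (A' τ)
      ≤ ∑ τ ∈ Sig, EE (Out τ) (A τ)
        + ((Sig.image (rest i)).card : ℚ) * ((Fintype.card V - Fintype.card ι + 1 : ℕ) : ℚ) := by
  rw [← Finset.sum_fiberwise_of_maps_to (s := Sig) (t := Sig.image (rest i)) (g := rest i)
    (fun τ hτ => Finset.mem_image_of_mem _ hτ) (fun τ => EE (Out τ) (A' τ))]
  rw [← Finset.sum_fiberwise_of_maps_to (s := Sig) (t := Sig.image (rest i)) (g := rest i)
    (fun τ hτ => Finset.mem_image_of_mem _ hτ) (fun τ => EE (Out τ) (A τ))]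
  have hc : ((Sig.image (rest i)).card : ℚ) * ((Fintype.card V - Fintype.card ι + 1 : ℕ) : ℚ)
      = ∑ _s ∈ Sig.image (rest i), ((Fintype.card V - Fintype.card ι + 1 : ℕ) : ℚ) := by
    rw [Finset.sum_const, nsmul_eq_mul]
  rw [hc, ← Finset.sum_add_distrib]
  apply Finset.sum_le_sum
  intro s hs
  rw [Finset.mem_image] at hs
  obtain ⟨σ, hσ, rfl⟩ := hs
  exact fibre_sum Sig hinj i σ hσ A A' hmono hext

/-- The main inequality. -/
theorem total_le [Nonempty V] (Sig : Finset (ι → V)) (hinj : ∀ σ ∈ Sig, Function.Injective σ)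
    {σ₀ : ι → W} {E : Set (ι → W)} {N : Finset W} {C : ι → ℕ} (h : IsTT σ₀ E N C) :
    ∑ τ ∈ Sig, EE (Out τ) (Emb Sig σ₀ E N τ)
      ≤ (∑ i, (C i : ℚ) * ((Sig.image (rest i)).card : ℚ))
        * ((Fintype.card V - Fintype.card ι + 1 : ℕ) : ℚ) := by
  induction h with
  | single σ h =>
    have h0 : ∀ τ ∈ Sig, EE (Out τ) (Emb Sig σ {σ} ∅ τ) = 0 := by
      intro τ hτ
      unfold EE
      apply Finset.sum_eq_zero
      intro Y _
      rw [if_pos]
      refine ⟨Function.extend σ τ (fun _ => Classical.arbitrary V), ?_, by simp, by simp, ?_⟩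
      · intro i
        exact h.extend_apply _ _ _
      · intro τ' hτ'
        rw [Set.mem_singleton_iff] at hτ'
        subst hτ'
        have : Function.extend τ' τ (fun _ => Classical.arbitrary V) ∘ τ' = τ := by
          funext i; exact h.extend_apply _ _ _
        rw [this]; exact hτ
    rw [Finset.sum_congr rfl h0]
    simp
  | ext σ E N C i w h hw hw' ih =>
    have h1 := total_ext Sig hinj i (Emb Sig σ E N)
      (Emb Sig (Function.update σ i w) (insert (Function.update σ i w) E) (insert (σ i) N))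
      (fun τ _ Y Z hYZ hA => hA.mono hYZ)
      (fun τ hτ Y _ v hv _ he => Emb.ext h i w hw hw' hτ v hv he)
    refine h1.trans ?_
    have h2 : ∑ j, ((Function.update C i (C i + 1) j : ℕ) : ℚ) * ((Sig.image (rest j)).card : ℚ)
        = ∑ j, (C j : ℚ) * ((Sig.image (rest j)).card : ℚ) + ((Sig.image (rest i)).card : ℚ) := by
      rw [← Finset.add_sum_erase _ _ (Finset.mem_univ i),
        ← Finset.add_sum_erase _ (fun j => (C j : ℚ) * ((Sig.image (rest j)).card : ℚ))
          (Finset.mem_univ i)]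
      rw [Function.update_self]
      have : ∑ x ∈ Finset.univ.erase i,
          ((Function.update C i (C i + 1) x : ℕ) : ℚ) * ((Sig.image (rest x)).card : ℚ)
          = ∑ x ∈ Finset.univ.erase i, (C x : ℚ) * ((Sig.image (rest x)).card : ℚ) := by
        apply Finset.sum_congr rfl
        intro x hx
        rw [Function.update_of_ne (Finset.ne_of_mem_erase hx)]
      rw [this]; push_cast; ring
    rw [h2, add_mul]
    linarith
  | glue σ E₁ E₂ N₁ N₂ C₁ C₂ h₁ h₂ hd ih₁ ih₂ =>
    have h1 : ∀ τ ∈ Sig, EE (Out τ) (Emb Sig σ (E₁ ∪ E₂) (N₁ ∪ N₂) τ)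
        ≤ EE (Out τ) (Emb Sig σ E₁ N₁ τ) + EE (Out τ) (Emb Sig σ E₂ N₂ τ) := by
      intro τ _
      refine le_trans ?_ (EE_box _ (Out τ) rfl _ _)
      apply EE_mono
      intro Y _ hY
      exact Emb.glue h₁ h₂ hd hY
    have h2 := Finset.sum_le_sum h1
    rw [Finset.sum_add_distrib] at h2
    have h3 : ∑ j, (((C₁ + C₂) j : ℕ) : ℚ) * ((Sig.image (rest j)).card : ℚ)
        = ∑ j, (C₁ j : ℚ) * ((Sig.image (rest j)).card : ℚ)
          + ∑ j, (C₂ j : ℚ) * ((Sig.image (rest j)).card : ℚ) := by
      rw [← Finset.sum_add_distrib]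
      apply Finset.sum_congr rfl
      intro j _
      simp only [Pi.add_apply]; push_cast; ring
    rw [h3, add_mul]
    linarith

/-- **Main theorem.** If `Sig` is a family of injective tuples that contains no copy of the
labelled tight tree, then `|Sig| ≤ ∑ i, C i * |∂_i Sig|`. -/
theorem card_le [Nonempty V] (Sig : Finset (ι → V)) (hinj : ∀ σ ∈ Sig, Function.Injective σ)
    {σ₀ : ι → W} {E : Set (ι → W)} {N : Finset W} {C : ι → ℕ} (h : IsTT σ₀ E N C)
    (hno : ¬ ∃ φ : W → V, Set.InjOn φ ((N : Set W) ∪ Set.range σ₀) ∧ ∀ τ ∈ E, φ ∘ τ ∈ Sig) :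
    Sig.card ≤ ∑ i, C i * (Sig.image (rest i)).card := by
  rcases Finset.eq_empty_or_nonempty Sig with hS | ⟨σ₁, hσ₁⟩
  · subst hS; simp
  have h1 := total_le Sig hinj h
  have hcard : ∀ τ ∈ Sig, (Out τ).card + 1 = Fintype.card V - Fintype.card ι + 1 := by
    intro τ hτ
    rw [Out, Finset.card_sdiff_of_subset (Finset.subset_univ _),
      Finset.card_image_of_injective _ (hinj τ hτ), Finset.card_univ, Finset.card_univ]
  have h2 : ∀ τ ∈ Sig, EE (Out τ) (Emb Sig σ₀ E N τ)
      = ((Fintype.card V - Fintype.card ι + 1 : ℕ) : ℚ) := by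
    intro τ hτ
    rw [EE_false, ← hcard τ hτ]
    · push_cast; ring
    · rintro Y hY ⟨φ, a1, a2, a3, a4⟩
      apply hno
      refine ⟨φ, ?_, a4⟩
      obtain ⟨i1, i2, i3, _, _⟩ := h.inv
      rintro x (hx | ⟨j, rfl⟩) y (hy | ⟨k, rfl⟩) hxy
      · exact a2 hx hy hxy
      · rw [a1 k] at hxy
        have := mem_Out.mp (hY (a3 x hx)) k
        exact absurd hxy.symm this
      · rw [a1 j] at hxy
        have := mem_Out.mp (hY (a3 y hy)) j
        exact absurd hxy this
      · rw [a1 j, a1 k] at hxy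
        rw [hinj τ hτ hxy]
  rw [Finset.sum_congr rfl h2, Finset.sum_const, nsmul_eq_mul] at h1
  have hpos : (0 : ℚ) < ((Fintype.card V - Fintype.card ι + 1 : ℕ) : ℚ) := by
    exact_mod_cast Nat.succ_pos _
  have h3 := le_of_mul_le_mul_right h1 hpos
  exact_mod_cast h3

end emb

end Pool.Agent.Lib.TightTree
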