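import Mathlib
import Pool.Agent.Lib.TightTree.Main

set_option autoImplicit false

namespace Pool.Agent.Lib.TightTree

open Finset Classical

section addleaf

variable {ι W : Type*} [DecidableEq ι] [DecidableEq W]

lemma update_add_one (C : ι → ℕ) (i : ι) :
    Function.update C i (C i + 1) = C + Pi.single i 1 := by
  funext j
  by_cases hj : j = i
  · subst hj; simp
  · simp [Function.update_of_ne hj, Pi.single_eq_of_ne hj]

lemma IsTT.pair {σ : ι → W} (hσ : Function.Injective σ) (i : ι) (w : W) (hw : ∀ j, w ≠ σ j) :
    IsTT σ (insert (Function.update σ i w) {σ}) {w} (Pi.single i 1) := by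
  have h1 : IsTT (Function.update σ i w) {Function.update σ i w} ∅ 0 :=
    IsTT.single _ (update_injective hσ i w hw)
  have h2 := IsTT.ext _ _ _ _ i (σ i) h1 (by simp) (by
    intro j
    by_cases hj : j = i
    · subst hj; rw [Function.update_self]; exact (hw j).symm
    · rw [Function.update_of_ne hj]; exact fun h => hj (hσ h.symm))
  rw [Function.update_idem, Function.update_eq_self, Function.update_self, update_add_one,
    zero_add, Set.pair_comm] at h2
  simpa using h2

lemma IsTT.add_root {σ : ι → W} {E : Set (ι → W)} {N : Finset W} {C : ι → ℕ}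
    (h : IsTT σ E N C) (i : ι) (w : W) (hw : w ∉ N) (hw' : ∀ j, w ≠ σ j) :
    IsTT σ (insert (Function.update σ i w) E) (insert w N) (C + Pi.single i 1) := by
  obtain ⟨i1, i2, i3, i4, i5⟩ := h.inv
  have h2 := IsTT.glue σ E _ N _ C _ h (IsTT.pair i1 i w hw')
    (by rw [Finset.disjoint_singleton_right]; exact hw)
  have hE : E ∪ insert (Function.update σ i w) {σ} = insert (Function.update σ i w) E := by
    ext τ
    simp only [Set.mem_union, Set.mem_insert_iff, Set.mem_singleton_iff]
    constructor
    · rintro (h | h | rfl)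
      · exact Or.inr h
      · exact Or.inl h
      · exact Or.inr i5
    · rintro (h | h)
      · exact Or.inr (Or.inl h)
      · exact Or.inl h
  have hN : N ∪ {w} = insert w N := by
    ext x; simp only [Finset.mem_union, Finset.mem_singleton, Finset.mem_insert]; tauto
  rw [hE, hN] at h2
  exact h2

/-- A new leaf can be attached at every edge. -/
lemma IsTT.add_leaf {σ : ι → W} {E : Set (ι → W)} {N : Finset W} {C : ι → ℕ}
    (h : IsTT σ E N C) : ∀ τ ∈ E, ∀ (i : ι) (w : W), w ∉ N → (∀ j, w ≠ σ j) →
    IsTT σ (insert (Function.update τ i w) E) (insert w N) (C + Pi.single i 1) := by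
  induction h with
  | single σ h =>
    intro τ hτ i w hw hw'
    rw [Set.mem_singleton_iff] at hτ
    subst hτ
    exact (IsTT.single τ h).add_root i w hw hw'
  | ext σ E N C i₀ w₀ h hw₀ hw₀' ih =>
    intro τ hτ i w hw hw'
    rcases hτ with rfl | hτ
    · exact (IsTT.ext σ E N C i₀ w₀ h hw₀ hw₀').add_root i w hw hw'
    · rw [Finset.mem_insert, not_or] at hw
      have hww₀ : w ≠ w₀ := by
        have := hw' i₀
        rwa [Function.update_self] at this
      have hwσ : ∀ j, w ≠ σ j := by
        intro j
        by_cases hj : j = i₀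
        · subst hj; exact hw.1
        · have := hw' j
          rwa [Function.update_of_ne hj] at this
      have h1 := ih τ hτ i w hw.2 hwσ
      have h2 := IsTT.ext _ _ _ _ i₀ w₀ h1 (by
        rw [Finset.mem_insert, not_or]; exact ⟨hww₀.symm, hw₀⟩) hw₀'
      rw [update_add_one] at h2 ⊢
      rw [Set.insert_comm, Finset.insert_comm, add_right_comm] at h2
      exact h2
  | glue σ E₁ E₂ N₁ N₂ C₁ C₂ h₁ h₂ hd ih₁ ih₂ =>
    intro τ hτ i w hw hw'
    rw [Finset.mem_union, not_or] at hw
    rcases hτ with hτ | hτ
    · have h1 := IsTT.glue _ _ _ _ _ _ _ (ih₁ τ hτ i w hw.1 hw') h₂ (by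
        rw [Finset.disjoint_insert_left]; exact ⟨hw.2, hd⟩)
      rw [Set.insert_union, Finset.insert_union, add_right_comm] at h1
      exact h1
    · have h1 := IsTT.glue _ _ _ _ _ _ _ h₁ (ih₂ τ hτ i w hw.2 hw') (by
        rw [Finset.disjoint_insert_right]; exact ⟨hw.1, hd⟩)
      rw [Set.union_insert, Finset.union_insert, ← add_assoc] at h1
      exact h1

end addleaf

section seq

variable {W : Type*} [DecidableEq W]

lemma exists_tuple {r : ℕ} (s : Finset W) (hs : s.card = r) :
    ∃ σ : Fin r → W, Function.Injective σ ∧ Finset.univ.image σ = s := by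
  refine ⟨fun j => ((s.equivFinOfCardEq hs).symm j : W), ?_, ?_⟩
  · intro a b hab
    exact (s.equivFinOfCardEq hs).symm.injective (Subtype.ext hab)
  · ext x
    simp only [Finset.mem_image, Finset.mem_univ, true_and]
    constructor
    · rintro ⟨j, rfl⟩; exact Subtype.coe_prop _
    · intro hx
      exact ⟨(s.equivFinOfCardEq hs) ⟨x, hx⟩, by simp⟩

/-- Every tight tree given by a proper ordering of its edges is a rooted labelled tight tree. -/
theorem exists_isTT {r : ℕ} (e : ℕ → Finset W) (t : ℕ) (ht : 1 ≤ t)
    (hcard : ∀ i, i < t → (e i).card = r)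
    (hprop : ∀ i, 0 < i → i < t →
      ∃ v ∈ e i, (∀ j, j < i → v ∉ e j) ∧ ∃ j, j < i ∧ e i \ {v} ⊆ e j) :
    ∃ (σ : Fin r → W) (E : Set (Fin r → W)) (N : Finset W) (C : Fin r → ℕ),
      IsTT σ E N C ∧ (∀ i, i < t → ∃ τ ∈ E, Finset.univ.image τ = e i) ∧
      (∀ x, (x ∈ N ∨ ∃ j, σ j = x) ↔ ∃ i, i < t ∧ x ∈ e i) ∧ N.card + 1 = t := by
  induction t, ht using Nat.le_induction with
  | base =>
    obtain ⟨σ, hσ, him⟩ := exists_tuple (e 0) (hcard 0 (by omega))
    refine ⟨σ, {σ}, ∅, 0, IsTT.single σ hσ, ?_, ?_, by simp⟩
    · intro i hi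
      have : i = 0 := by omega
      subst this
      exact ⟨σ, rfl, him⟩
    · intro x
      simp only [Finset.notMem_empty, false_or]
      constructor
      · rintro ⟨j, rfl⟩
        exact ⟨0, by omega, by rw [← him]; exact Finset.mem_image_of_mem _ (Finset.mem_univ _)⟩
      · rintro ⟨i, hi, hx⟩
        have : i = 0 := by omega
        subst this
        rw [← him, Finset.mem_image] at hx
        obtain ⟨j, _, hj⟩ := hx
        exact ⟨j, hj⟩
  | succ t ht ih =>
    obtain ⟨σ, E, N, C, h, hE, hN, hc⟩ := ih (fun i hi => hcard i (by omega))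
      (fun i h0 hi => hprop i h0 (by omega))
    obtain ⟨v, hv, hnew, j, hj, hsub⟩ := hprop t (by omega) (by omega)
    obtain ⟨τ, hτ, hτim⟩ := hE j hj
    obtain ⟨i1, i2, i3, i4, i5⟩ := h.inv
    have hvnot : ¬ (v ∈ N ∨ ∃ j, σ j = v) := by
      rw [hN v]
      rintro ⟨i, hi, hvi⟩
      exact hnew i hi hvi
    have hvN : v ∉ N := fun h => hvnot (Or.inl h)
    have hvσ : ∀ j, v ≠ σ j := fun j h => hvnot (Or.inr ⟨j, h.symm⟩)
    -- find the replaced position
    have hc1 : (e t \ {v}).card = r - 1 := by
      rw [Finset.card_sdiff_of_subset (by simpa using hv), hcard t (by omega)]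
      simp
    have hrpos : 0 < r := by
      rw [← hcard t (by omega)]; exact Finset.card_pos.mpr ⟨v, hv⟩
    have hcj : (e j).card = r := hcard j (by omega)
    have hx : ∃ x ∈ e j, x ∉ e t \ {v} := by
      by_contra hcon
      push Not at hcon
      have := Finset.card_le_card (fun x hx => hcon x hx : e j ⊆ e t \ {v})
      omega
    obtain ⟨x, hxj, hxt⟩ := hx
    rw [← hτim, Finset.mem_image] at hxj
    obtain ⟨i, _, hi⟩ := hxj
    have hsub2 : e t \ {v} ⊆ (e j).erase x := by
      intro y hy
      rw [Finset.mem_erase]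
      exact ⟨fun h => hxt (h ▸ hy), hsub hy⟩
    have heq : e t \ {v} = (e j).erase x := by
      apply Finset.eq_of_subset_of_card_le hsub2
      rw [hc1, Finset.card_erase_of_mem, hcj]
      rw [← hτim, Finset.mem_image]; exact ⟨i, Finset.mem_univ _, hi⟩
    have hτinj := i4 τ hτ
    have himg : Finset.univ.image (Function.update τ i v) = e t := by
      ext y
      rw [Finset.mem_image]
      constructor
      · rintro ⟨k, _, hk⟩
        by_cases hki : k = i
        · subst hki
          rw [Function.update_self] at hk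
          rw [← hk]; exact hv
        · rw [Function.update_of_ne hki] at hk
          have : y ∈ (e j).erase x := by
            rw [Finset.mem_erase, ← hk, ← hτim]
            refine ⟨fun h => hki (hτinj (by rw [h, hi])), Finset.mem_image_of_mem _ (Finset.mem_univ _)⟩
          rw [← heq] at this
          exact (Finset.mem_sdiff.mp this).1
      · intro hy
        by_cases hyv : y = v
        · exact ⟨i, Finset.mem_univ _, by rw [Function.update_self, hyv]⟩
        · have : y ∈ e t \ {v} := by
            rw [Finset.mem_sdiff, Finset.mem_singleton]; exact ⟨hy, hyv⟩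
          rw [heq, Finset.mem_erase, ← hτim, Finset.mem_image] at this
          obtain ⟨hyx, k, _, hk⟩ := this
          refine ⟨k, Finset.mem_univ _, ?_⟩
          rw [Function.update_of_ne, hk]
          rintro rfl
          exact hyx (by rw [← hk, hi])
    refine ⟨σ, insert (Function.update τ i v) E, insert v N, C + Pi.single i 1,
      h.add_leaf τ hτ i v hvN hvσ, ?_, ?_, ?_⟩
    · intro k hk
      by_cases hkt : k = t
      · subst hkt
        exact ⟨_, Set.mem_insert _ _, himg⟩
      · obtain ⟨τ', hτ', h'⟩ := hE k (by omega)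
        exact ⟨τ', Set.mem_insert_of_mem _ hτ', h'⟩
    · intro y
      constructor
      · rintro (hy | hy)
        · rw [Finset.mem_insert] at hy
          rcases hy with rfl | hy
          · exact ⟨t, by omega, hv⟩
          · obtain ⟨k, hk, hyk⟩ := (hN y).mp (Or.inl hy)
            exact ⟨k, by omega, hyk⟩
        · obtain ⟨k, hk, hyk⟩ := (hN y).mp (Or.inr hy)
          exact ⟨k, by omega, hyk⟩
      · rintro ⟨k, hk, hyk⟩
        by_cases hyv : y = v
        · left; rw [hyv]; exact Finset.mem_insert_self _ _
        · have hy' : ∃ k, k < t ∧ y ∈ e k := by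
            by_cases hkt : k = t
            · subst hkt
              refine ⟨j, hj, hsub ?_⟩
              rw [Finset.mem_sdiff, Finset.mem_singleton]; exact ⟨hyk, hyv⟩
            · exact ⟨k, by omega, hyk⟩
          rcases (hN y).mpr hy' with h | h
          · exact Or.inl (Finset.mem_insert_of_mem h)
          · exact Or.inr h
    · rw [Finset.card_insert_of_notMem hvN, hc]

end seq

section count

variable {V : Type*} [Fintype V] [DecidableEq V]

/-- All orderings of the edges of `H`. -/
def orderings {r : ℕ} (H : Finset (Finset V)) : Finset (Fin r → V) :=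
  Finset.univ.filter (fun σ => Function.Injective σ ∧ Finset.univ.image σ ∈ H)

lemma card_orderings {r : ℕ} (H : Finset (Finset V)) (hH : ∀ h ∈ H, h.card = r) :
    (orderings (r := r) H).card = r.factorial * H.card := by
  have h1 : (orderings (r := r) H).card
      = ∑ h ∈ H, ((orderings (r := r) H).filter (fun σ => Finset.univ.image σ = h)).card := by
    apply Finset.card_eq_sum_card_fiberwise
    intro σ hσ
    simp only [orderings, Finset.coe_filter, Finset.mem_univ, true_and, Set.mem_ofPred_eq] at hσ
    exact hσ.2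
  rw [h1]
  have h2 : ∀ h ∈ H, ((orderings (r := r) H).filter (fun σ => Finset.univ.image σ = h)).card
      = r.factorial := by
    intro h hh
    have hc : Fintype.card (Fin r ↪ {x // x ∈ h}) = r.factorial := by
      rw [Fintype.card_embedding_eq, Fintype.card_fin, Fintype.card_coe, hH h hh,
        Nat.descFactorial_self]
    rw [← hc, ← Finset.card_univ]
    symm
    refine Finset.card_nbij (fun f => fun j => ((f j : {x // x ∈ h}) : V)) ?_ ?_ ?_
    · intro f _
      have hinj : Function.Injective (fun j => ((f j : {x // x ∈ h}) : V)) := by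
        intro a b hab
        exact f.injective (Subtype.ext hab)
      have him : Finset.univ.image (fun j => ((f j : {x // x ∈ h}) : V)) = h := by
        apply Finset.eq_of_subset_of_card_le
        · intro x hx
          rw [Finset.mem_image] at hx
          obtain ⟨j, _, rfl⟩ := hx
          exact (f j).2
        · rw [Finset.card_image_of_injective _ hinj, Finset.card_univ, Fintype.card_fin, hH h hh]
      simp only [orderings, Finset.mem_coe, Finset.mem_filter, Finset.mem_univ, true_and]
      exact ⟨⟨hinj, by rw [him]; exact hh⟩, him⟩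
    · intro f _ g _ hfg
      apply DFunLike.ext
      intro j
      exact Subtype.ext (congrFun hfg j)
    · intro σ hσ
      simp only [orderings, Finset.coe_filter, Finset.mem_filter, Finset.mem_univ, true_and,
        Set.mem_ofPred_eq] at hσ
      obtain ⟨⟨hinj, _⟩, him⟩ := hσ
      refine ⟨⟨fun j => ⟨σ j, by rw [← him]; exact Finset.mem_image_of_mem _ (Finset.mem_univ _)⟩,
        ?_⟩, by simp, ?_⟩
      · intro a b hab
        exact hinj (Subtype.ext_iff.mp hab)
      · funext j; rfl
  rw [Finset.sum_congr rfl h2, Finset.sum_const, smul_eq_mul, mul_comm]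

lemma card_image_rest_le {ι : Type*} [Fintype ι] [DecidableEq ι] (Sig : Finset (ι → V))
    (hinj : ∀ σ ∈ Sig, Function.Injective σ) (i : ι) :
    (Sig.image (rest i)).card ≤ (Fintype.card V).descFactorial (Fintype.card ι - 1) := by
  have hc : Fintype.card ({j // j ≠ i} ↪ V)
      = (Fintype.card V).descFactorial (Fintype.card ι - 1) := by
    rw [Fintype.card_embedding_eq]
    congr 1
    rw [Fintype.card_subtype_compl, Fintype.card_subtype_eq]
  rw [← hc, ← Fintype.card_coe (Sig.image (rest i))]
  have hg : ∀ g : {x // x ∈ Sig.image (rest i)}, Function.Injective g.1 := by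
    rintro ⟨g, hg⟩
    rw [Finset.mem_image] at hg
    obtain ⟨σ, hσ, rfl⟩ := hg
    intro a b hab
    exact Subtype.ext (hinj σ hσ hab)
  refine Fintype.card_le_of_injective
    (fun g => (Function.Embedding.mk g.1 (hg g) : {j // j ≠ i} ↪ V)) ?_
  intro g g' hgg
  apply Subtype.ext
  exact congrArg (fun f : {j // j ≠ i} ↪ V => (f : {j // j ≠ i} → V)) hgg

end count

/-- **Kalai's bound** for tight trees given by a proper ordering of the edges. -/
theorem kalai {W V : Type*} [DecidableEq W] [Fintype V] [DecidableEq V] [Nonempty V]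
    {r : ℕ} (hr : 1 ≤ r) (e : ℕ → Finset W) (t : ℕ) (ht : 1 ≤ t)
    (hcard : ∀ i, i < t → (e i).card = r)
    (hprop : ∀ i, 0 < i → i < t →
      ∃ v ∈ e i, (∀ j, j < i → v ∉ e j) ∧ ∃ j, j < i ∧ e i \ {v} ⊆ e j)
    (H : Finset (Finset V)) (hH : ∀ h ∈ H, h.card = r)
    (hno : ¬ ∃ f : W → V, Set.InjOn f {x : W | ∃ i, i < t ∧ x ∈ e i} ∧
      ∀ i, i < t → (e i).image f ∈ H) :
    r * H.card ≤ (t - 1) * (Fintype.card V).choose (r - 1) := by
  obtain ⟨σ, E, N, C, h, hE, hN, hc⟩ := exists_isTT e t ht hcard hprop
  have hinj : ∀ τ ∈ orderings (r := r) H, Function.Injective τ := by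
    intro τ hτ
    simp only [orderings, Finset.mem_filter, Finset.mem_univ, true_and] at hτ
    exact hτ.1
  have h1 := card_le (orderings (r := r) H) hinj h (by
    rintro ⟨φ, hφ, hφE⟩
    apply hno
    refine ⟨φ, ?_, ?_⟩
    · intro x hx y hy hxy
      refine hφ ?_ ?_ hxy
      · rcases (hN x).mpr hx with h | ⟨j, hj⟩
        · exact Or.inl h
        · exact Or.inr ⟨j, hj⟩
      · rcases (hN y).mpr hy with h | ⟨j, hj⟩
        · exact Or.inl h
        · exact Or.inr ⟨j, hj⟩
    · intro i hi
      obtain ⟨τ, hτ, him⟩ := hE i hi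
      have := hφE τ hτ
      simp only [orderings, Finset.mem_filter, Finset.mem_univ, true_and] at this
      rw [← him, Finset.image_image]
      exact this.2)
  rw [card_orderings H hH] at h1
  have h2 : ∑ i, C i * ((orderings (r := r) H).image (rest i)).card
      ≤ ∑ i, C i * (Fintype.card V).descFactorial (r - 1) := by
    apply Finset.sum_le_sum
    intro i _
    apply Nat.mul_le_mul_left
    have := card_image_rest_le (orderings (r := r) H) hinj i
    rwa [Fintype.card_fin] at this
  rw [← Finset.sum_mul, h.card] at h2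
  have h3 : N.card = t - 1 := by omega
  rw [h3, Nat.descFactorial_eq_factorial_mul_choose] at h2
  obtain ⟨s, rfl⟩ : ∃ s, r = s + 1 := ⟨r - 1, by omega⟩
  have h4 := h1.trans h2
  rw [Nat.factorial_succ] at h4
  simp only [Nat.add_sub_cancel] at h4 ⊢
  have hpos : 0 < s.factorial := Nat.factorial_pos s
  have h5 : s.factorial * ((s + 1) * H.card)
      ≤ s.factorial * ((t - 1) * (Fintype.card V).choose s) := by
    calc s.factorial * ((s + 1) * H.card) = (s + 1) * s.factorial * H.card := by ring
      _ ≤ (t - 1) * (s.factorial * (Fintype.card V).choose s) := h4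
      _ = _ := by ring
  exact Nat.le_of_mul_le_mul_left h5 hpos

end Pool.Agent.Lib.TightTree
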