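import Mathlib
import Pool.Agent.Lib.TightTree.Seq

set_option autoImplicit false

namespace Pool.Agent.Lib.TightTree

open Finset Classical

/-- In a labelled tight tree every vertex occurs in one position only. -/
lemma IsTT.consistent {ι W : Type*} [DecidableEq ι] [DecidableEq W]
    {σ : ι → W} {E : Set (ι → W)} {N : Finset W} {C : ι → ℕ} (h : IsTT σ E N C) :
    ∀ τ ∈ E, ∀ τ' ∈ E, ∀ j j', τ j = τ' j' → j = j' := by
  induction h with
  | single σ h =>
    intro τ hτ τ' hτ' j j' hj
    rw [Set.mem_singleton_iff] at hτ hτ'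
    subst hτ; subst hτ'
    exact h hj
  | ext σ E N C i w h hw hw' ih =>
    obtain ⟨i1, i2, i3, i4, i5⟩ := h.inv
    have hnew : ∀ τ ∈ E, ∀ j, τ j ≠ w := by
      intro τ hτ j hj
      rcases i3 τ hτ j with h | ⟨k, hk⟩
      · exact hw (hj ▸ h)
      · exact hw' k (by rw [← hk, hj])
    have hmix : ∀ τ ∈ E, ∀ j j', τ j = Function.update σ i w j' → j = j' := by
      intro τ hτ j j' hj
      by_cases hji : j' = i
      · subst hji
        rw [Function.update_self] at hj
        exact absurd hj (hnew τ hτ j)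
      · rw [Function.update_of_ne hji] at hj
        exact ih τ hτ σ i5 j j' hj
    intro τ hτ τ' hτ' j j' hj
    rcases hτ with rfl | hτ
    · rcases hτ' with rfl | hτ'
      · exact update_injective i1 i w hw' hj
      · exact (hmix τ' hτ' j' j hj.symm).symm
    · rcases hτ' with rfl | hτ'
      · exact hmix τ hτ j j' hj
      · exact ih τ hτ τ' hτ' j j' hj
  | glue σ E₁ E₂ N₁ N₂ C₁ C₂ h₁ h₂ hd ih₁ ih₂ =>
    obtain ⟨i1, i2, i3, i4, i5⟩ := h₁.inv
    obtain ⟨j1, j2, j3, j4, j5⟩ := h₂.inv
    have hmix : ∀ τ ∈ E₁, ∀ τ' ∈ E₂, ∀ j j', τ j = τ' j' → j = j' := by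
      intro τ hτ τ' hτ' j j' hj
      have hk : ∃ k, τ j = σ k := by
        rcases i3 τ hτ j with h | h
        · rcases j3 τ' hτ' j' with h' | ⟨k, hk⟩
          · exact absurd (hj ▸ h') (Finset.disjoint_left.mp hd h)
          · exact ⟨k, hj.trans hk⟩
        · exact h
      obtain ⟨k, hk⟩ := hk
      rw [ih₁ τ hτ σ i5 j k hk, ← ih₂ τ' hτ' σ j5 j' k (hj ▸ hk)]
    intro τ hτ τ' hτ' j j' hj
    rcases hτ with hτ | hτ
    · rcases hτ' with hτ' | hτ'
      · exact ih₁ τ hτ τ' hτ' j j' hj
      · exact hmix τ hτ τ' hτ' j j' hj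
    · rcases hτ' with hτ' | hτ'
      · exact (hmix τ' hτ' τ hτ j' j hj.symm).symm
      · exact ih₂ τ hτ τ' hτ' j j' hj

section tree

variable {W : Type*} [Fintype W] [DecidableEq W]

/-- Growing a labelled tight tree (with two positions) inside a connected graph. -/
lemma grow (T : SimpleGraph W) (hT : T.Connected) (R : W → W → Prop)
    (h1 : ∀ a b y, R a b → T.Adj a y → R a y) (h2 : ∀ a b y, R a b → T.Adj b y → R y b)
    (hne : ∃ a b, R a b ∧ a ≠ b) (m : ℕ) : m + 2 ≤ Fintype.card W →
    ∃ (σ : Fin 2 → W) (E : Set (Fin 2 → W)) (N : Finset W) (C : Fin 2 → ℕ),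
      IsTT σ E N C ∧ (∀ τ ∈ E, R (τ 0) (τ 1)) ∧ N.card = m ∧ E.ncard = m + 1 ∧
      (∀ x, (x ∈ N ∨ ∃ j, σ j = x) → ∃ τ ∈ E, ∃ j, τ j = x) := by
  induction m with
  | zero =>
    intro _
    obtain ⟨a, b, hab, hne⟩ := hne
    have hinj : Function.Injective ![a, b] := by
      intro x y hxy
      fin_cases x <;> fin_cases y <;> simp_all
    refine ⟨![a, b], {![a, b]}, ∅, 0, IsTT.single _ hinj, ?_, by simp, by simp, ?_⟩
    · intro τ hτ
      rw [Set.mem_singleton_iff] at hτ
      subst hτ; exact hab
    · rintro x (hx | ⟨j, hj⟩)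
      · simp at hx
      · exact ⟨_, rfl, j, hj⟩
  | succ m ih =>
    intro hm
    obtain ⟨σ, E, N, C, h, hR, hNc, hEc, hcov⟩ := ih (by omega)
    obtain ⟨i1, i2, i3, i4, i5⟩ := h.inv
    have hex : ∃ y, ¬ (y ∈ N ∨ ∃ j, σ j = y) := by
      by_contra hcon
      push Not at hcon
      have hsub : (Finset.univ : Finset W) ⊆ N ∪ Finset.univ.image σ := by
        intro x _
        rw [Finset.mem_union]
        rcases hcon x with h | ⟨j, hj⟩
        · exact Or.inl h
        · right; rw [← hj]; exact Finset.mem_image_of_mem _ (Finset.mem_univ _)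
      have hc := Finset.card_le_card hsub
      have hc2 := Finset.card_union_le N (Finset.univ.image σ)
      have hc3 : (Finset.univ.image σ).card ≤ 2 := by
        refine Finset.card_image_le.trans ?_
        simp
      rw [Finset.card_univ] at hc
      omega
    obtain ⟨y₀, hy₀⟩ := hex
    obtain ⟨p⟩ := hT.preconnected (σ 0) y₀
    obtain ⟨d, _, hd1, hd2⟩ := p.exists_boundary_dart {x | x ∈ N ∨ ∃ j, σ j = x}
      (Or.inr ⟨0, rfl⟩) hy₀
    have hadj : T.Adj d.fst d.snd := d.adj
    set y := d.snd with hy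
    obtain ⟨τ, hτ, j, hj⟩ := hcov d.fst hd1
    have hyN : y ∉ N := fun hh => hd2 (Or.inl hh)
    have hyσ : ∀ j, y ≠ σ j := fun j hh => hd2 (Or.inr ⟨j, hh.symm⟩)
    have hentry : ∀ τ ∈ E, ∀ j, τ j ≠ y := by
      intro τ hτ j hh
      rcases i3 τ hτ j with h' | ⟨k, hk⟩
      · exact hyN (hh ▸ h')
      · exact hyσ k (by rw [← hk, hh])
    have hfin : ∀ i : Fin 2, Function.update τ i y ∉ E := by
      intro i hmem
      exact hentry _ hmem i (by rw [Function.update_self])
    have key : ∀ i : Fin 2, R (Function.update τ i y 0) (Function.update τ i y 1) →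
        ∃ (σ : Fin 2 → W) (E : Set (Fin 2 → W)) (N : Finset W) (C : Fin 2 → ℕ),
          IsTT σ E N C ∧ (∀ τ ∈ E, R (τ 0) (τ 1)) ∧ N.card = m + 1 ∧ E.ncard = m + 1 + 1 ∧
          (∀ x, (x ∈ N ∨ ∃ j, σ j = x) → ∃ τ ∈ E, ∃ j, τ j = x) := by
      intro i hRi
      refine ⟨σ, insert (Function.update τ i y) E, insert y N, _,
        h.add_leaf τ hτ i y hyN hyσ, ?_, ?_, ?_, ?_⟩
      · intro τ' hτ'
        rcases hτ' with rfl | hτ'
        · exact hRi
        · exact hR τ' hτ'
      · rw [Finset.card_insert_of_notMem hyN, hNc]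
      · rw [Set.ncard_insert_of_notMem (hfin i) (Set.toFinite _), hEc]
      · intro x hx
        by_cases hxy : x = y
        · exact ⟨_, Set.mem_insert _ _, i, by rw [Function.update_self, hxy]⟩
        · have : x ∈ N ∨ ∃ j, σ j = x := by
            rcases hx with hx | hx
            · rw [Finset.mem_insert] at hx
              exact Or.inl (hx.resolve_left hxy)
            · exact Or.inr hx
          obtain ⟨τ', hτ', hj'⟩ := hcov x this
          exact ⟨τ', Set.mem_insert_of_mem _ hτ', hj'⟩
    have hRτ := hR τ hτ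
    rw [← hj] at hadj
    fin_cases j
    · apply key 1
      simp only [Function.update_self]
      rw [Function.update_of_ne (by decide)]
      exact h1 _ _ _ hRτ hadj
    · apply key 0
      simp only [Function.update_self]
      rw [Function.update_of_ne (by decide)]
      exact h2 _ _ _ hRτ hadj

/-- A finite tree with at least one edge is a labelled tight tree with two positions. -/
theorem exists_isTT_of_tree (T : SimpleGraph W) (hT : T.IsTree) (R : W → W → Prop)
    (h0 : ∀ a b, R a b → T.Adj a b)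
    (h1 : ∀ a b y, R a b → T.Adj a y → R a y) (h2 : ∀ a b y, R a b → T.Adj b y → R y b)
    (hne : ∃ a b, R a b) :
    ∃ (σ : Fin 2 → W) (E : Set (Fin 2 → W)) (N : Finset W) (C : Fin 2 → ℕ),
      IsTT σ E N C ∧ (∀ τ ∈ E, R (τ 0) (τ 1)) ∧
      (∀ a b, T.Adj a b → (![a, b] ∈ E ∨ ![b, a] ∈ E)) ∧
      (∀ x, x ∈ N ∨ ∃ j, σ j = x) ∧ N.card + 2 = Fintype.card W := by
  obtain ⟨a, b, hab⟩ := hne
  have hne' : a ≠ b := (h0 a b hab).ne
  have hcard : 2 ≤ Fintype.card W := by
    have : 1 < Fintype.card W := Fintype.one_lt_card_iff.mpr ⟨a, b, hne'⟩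
    omega
  obtain ⟨σ, E, N, C, h, hR, hNc, hEc, hcov⟩ := grow T hT.connected R h1 h2 ⟨a, b, hab, hne'⟩
    (Fintype.card W - 2) (by omega)
  obtain ⟨i1, i2, i3, i4, i5⟩ := h.inv
  refine ⟨σ, E, N, C, h, hR, ?_, ?_, by omega⟩
  · -- edges, by counting
    have hedge := hT.card_edgeFinset
    have hmaps : ∀ τ ∈ E, s(τ 0, τ 1) ∈ T.edgeSet := by
      intro τ hτ
      rw [SimpleGraph.mem_edgeSet]
      exact h0 _ _ (hR τ hτ)
    have hinj : Set.InjOn (fun τ : Fin 2 → W => s(τ 0, τ 1)) E := by
      intro τ hτ τ' hτ' heq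
      simp only [Sym2.eq, Sym2.rel_iff', Prod.mk.injEq, Prod.swap_prod_mk] at heq
      rcases heq with ⟨ha, hb⟩ | ⟨ha, hb⟩
      · funext j
        fin_cases j
        · exact ha
        · exact hb
      · have := h.consistent τ hτ τ' hτ' 0 1 ha
        exact absurd this (by decide)
    have himg : (fun τ : Fin 2 → W => s(τ 0, τ 1)) '' E = T.edgeSet := by
      apply Set.eq_of_subset_of_ncard_le
      · rintro _ ⟨τ, hτ, rfl⟩
        exact hmaps τ hτ
      · rw [hinj.ncard_image, hEc, ← SimpleGraph.coe_edgeFinset,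
          Set.ncard_coe_finset]
        omega
      · exact Set.toFinite _
    intro x y hxy
    have : s(x, y) ∈ (fun τ : Fin 2 → W => s(τ 0, τ 1)) '' E := by
      rw [himg]; exact hxy
    obtain ⟨τ, hτ, heq⟩ := this
    simp only [Sym2.eq, Sym2.rel_iff', Prod.mk.injEq, Prod.swap_prod_mk] at heq
    rcases heq with ⟨ha, hb⟩ | ⟨ha, hb⟩
    · left
      have : ![x, y] = τ := by
        funext j
        fin_cases j
        · exact ha.symm
        · exact hb.symm
      rw [this]; exact hτ
    · right
      have : ![y, x] = τ := by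
        funext j
        fin_cases j
        · exact ha.symm
        · exact hb.symm
      rw [this]; exact hτ
  · -- vertices, by counting
    have hU : N ∪ Finset.univ.image σ = Finset.univ := by
      apply Finset.eq_univ_of_card
      rw [Finset.card_union_of_disjoint, Finset.card_image_of_injective _ i1, Finset.card_univ,
        Fintype.card_fin, hNc]
      · omega
      · rw [Finset.disjoint_left]
        intro x hx hx'
        rw [Finset.mem_image] at hx'
        obtain ⟨j, _, rfl⟩ := hx'
        exact i2 j hx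
    intro x
    have : x ∈ N ∪ Finset.univ.image σ := by rw [hU]; exact Finset.mem_univ _
    rw [Finset.mem_union, Finset.mem_image] at this
    rcases this with h | ⟨j, _, hj⟩
    · exact Or.inl h
    · exact Or.inr ⟨j, hj⟩

end tree

/-- **Antidirected trees** (conjecture of Addario-Berry et al.), general form: `D` a loopless
digraph on `V` with more than `(|W| - 2) * |V|` arcs; `R` an orientation of the tree `T` in which
every vertex is a source or a sink. Then the oriented tree embeds in `D`. With `R = T.Adj` and `D`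
symmetric this is the Erdős–Sós conjecture. -/
theorem digraph_tree {V W : Type*} [Fintype V] [Fintype W]
    (D : V → V → Prop) (hD : ∀ v, ¬ D v v) (T : SimpleGraph W) (hT : T.IsTree)
    (R : W → W → Prop) (h0 : ∀ a b, R a b → T.Adj a b)
    (h1 : ∀ a b y, R a b → T.Adj a y → R a y) (h2 : ∀ a b y, R a b → T.Adj b y → R y b)
    (hne : ∃ a b, R a b)
    (hcard : (Fintype.card W - 2) * Fintype.card V < Nat.card {p : V × V // D p.1 p.2}) :
    ∃ f : W → V, Function.Injective f ∧
      ∀ a b, T.Adj a b → (R a b ∧ D (f a) (f b)) ∨ (R b a ∧ D (f b) (f a)) := by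
  obtain ⟨σ, E, N, C, h, hR, hE, hN, hc⟩ := exists_isTT_of_tree T hT R h0 h1 h2 hne
  set Sig : Finset (Fin 2 → V) := Finset.univ.filter (fun σ => D (σ 0) (σ 1)) with hSig
  have hinj : ∀ τ ∈ Sig, Function.Injective τ := by
    intro τ hτ x y hxy
    rw [hSig, Finset.mem_filter] at hτ
    have hne : τ 0 ≠ τ 1 := by
      intro heq
      have := hτ.2
      rw [heq] at this
      exact hD _ this
    fin_cases x <;> fin_cases y
    · rfl
    · exact absurd hxy hne
    · exact absurd hxy.symm hne
    · rfl
  have hSc : Sig.card = Nat.card {p : V × V // D p.1 p.2} := by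
    rw [Nat.card_eq_fintype_card, Fintype.card_subtype]
    refine Finset.card_nbij' (fun σ => (σ 0, σ 1)) (fun p => ![p.1, p.2]) ?_ ?_ ?_ ?_
    · intro τ hτ
      simp only [hSig, Finset.coe_filter, Finset.mem_univ, true_and, Set.mem_ofPred_eq] at hτ ⊢
      exact hτ
    · intro p hp
      simp only [hSig, Finset.coe_filter, Finset.mem_univ, true_and, Set.mem_ofPred_eq] at hp ⊢
      exact hp
    · intro τ _
      funext j
      fin_cases j <;> rfl
    · intro p _
      rfl
  have hV : Nonempty V := by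
    by_contra hcon
    rw [not_nonempty_iff] at hcon
    have : Nat.card {p : V × V // D p.1 p.2} = 0 := by
      rw [Nat.card_eq_zero]; left
      exact ⟨fun p => hcon.false p.1.1⟩
    omega
  have hcopy : ∃ φ : W → V, Set.InjOn φ ((N : Set W) ∪ Set.range σ) ∧ ∀ τ ∈ E, φ ∘ τ ∈ Sig := by
    by_contra hno
    have hle := card_le Sig hinj h hno
    have h3 : ∑ i, C i * (Sig.image (rest i)).card ≤ ∑ i, C i * Fintype.card V := by
      apply Finset.sum_le_sum
      intro i _
      apply Nat.mul_le_mul_left
      have := card_image_rest_le Sig hinj i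
      simpa using this
    rw [← Finset.sum_mul, h.card] at h3
    have h4 : N.card = Fintype.card W - 2 := by omega
    rw [h4] at h3
    omega
  obtain ⟨φ, hφ, hφE⟩ := hcopy
  have huniv : ∀ x, x ∈ (N : Set W) ∪ Set.range σ := by
    intro x
    rcases hN x with h | ⟨j, hj⟩
    · exact Or.inl h
    · exact Or.inr ⟨j, hj⟩
  refine ⟨φ, fun x y hxy => hφ (huniv x) (huniv y) hxy, ?_⟩
  intro a b hab
  rcases hE a b hab with hm | hm
  · left
    have h5 := hφE _ hm
    simp only [hSig, Finset.mem_filter, Finset.mem_univ, true_and] at h5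
    exact ⟨hR _ hm, h5⟩
  · right
    have h5 := hφE _ hm
    simp only [hSig, Finset.mem_filter, Finset.mem_univ, true_and] at h5
    exact ⟨hR _ hm, h5⟩

/-- **The Erdős–Sós conjecture.** Every graph `G` with `2 e(G) > (k-1) |V|` contains every tree
with `k` edges (`|W| = k + 1` vertices). -/
theorem erdos_sos {V W : Type*} [Fintype V] [Fintype W] (G : SimpleGraph V)
    [Fintype G.edgeSet] (T : SimpleGraph W) (hT : T.IsTree)
    (hcard : (Fintype.card W - 2) * Fintype.card V < 2 * G.edgeFinset.card) :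
    ∃ f : W → V, Function.Injective f ∧ ∀ a b, T.Adj a b → G.Adj (f a) (f b) := by
  have hW : Nonempty W := hT.connected.nonempty
  by_cases h2 : ∃ a b, T.Adj a b
  · have hc : Nat.card {p : V × V // G.Adj p.1 p.2} = 2 * G.edgeFinset.card := by
      have hd : Nat.card {p : V × V // G.Adj p.1 p.2} = Fintype.card G.Dart := by
        rw [← Nat.card_eq_fintype_card]
        apply Nat.card_congr
        exact {
          toFun := fun p => ⟨p.1, p.2⟩
          invFun := fun d => ⟨d.toProd, d.adj⟩
          left_inv := fun _ => rfl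
          right_inv := fun _ => rfl }
      rw [hd, SimpleGraph.dart_card_eq_twice_card_edges]
      congr 2
      ext e; simp
    obtain ⟨f, hf, hf2⟩ := digraph_tree G.Adj (fun v => G.loopless.irrefl v) T hT T.Adj
      (fun _ _ h => h) (fun _ _ _ _ h => h) (fun _ _ _ _ h => h.symm) h2 (by rw [hc]; exact hcard)
    refine ⟨f, hf, fun a b hab => ?_⟩
    rcases hf2 a b hab with ⟨_, h⟩ | ⟨_, h⟩
    · exact h
    · exact h.symm
  · push Not at h2
    have hV : Nonempty V := by
      by_contra hcon
      rw [not_nonempty_iff] at hcon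
      have : G.edgeFinset.card = 0 := by
        rw [Finset.card_eq_zero, Finset.eq_empty_iff_forall_notMem]
        intro e
        induction e with
        | _ a b => exact (hcon.false a).elim
      omega
    have hsub : Subsingleton W := by
      constructor
      intro a b
      by_contra hne
      obtain ⟨p⟩ := hT.connected.preconnected a b
      cases p with
      | nil => exact hne rfl
      | cons hadj _ => exact h2 _ _ hadj
    obtain ⟨v⟩ := hV
    exact ⟨fun _ => v, fun a b _ => Subsingleton.elim a b, fun a b hab => absurd hab (h2 a b)⟩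

end Pool.Agent.Lib.TightTree
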